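import Pool.Agent.Q35.TB.All

/-!
# Zariski density of rational points on Enriques surfaces in Horikawa's form, over all extensions of
bounded degree

Let `K` be a number field and let `F` be a form of bidegree `(4, 4)` over `K` in `x₀, x₁; y₀, y₁`, in
which `x₁` and `y₁` occur together to even powers, such that the curve `F = 0` in `ℙ¹ × ℙ¹` is smooth.
Let `X : w² = F` be the double cover of `ℙ¹ × ℙ¹`, a K3 surface, and let `Y` be the quotient of `X` by
the involution `ι : (w; x₀, x₁; y₀, y₁) ↦ (-w; x₀, -x₁; y₀, -y₁)`. It has no fixed points (at the four
possible points of `ℙ¹ × ℙ¹` the form `F` does not vanish, since otherwise the branch curve would be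
singular there), so `Y` is an Enriques surface. (By Horikawa the general Enriques surface has this
form over the algebraic closure.)

The points of `Y` over an extension `L` of `K` are the pairs `{P, ιP}` of points of `X` over the
algebraic closure which are stable under the Galois group of `L` (`PointOver L F w X`).

For each `D` there is a finite set `T` of points of `ℙ¹ × ℙ¹` over the algebraic closure such that for
ALL extensions `L` of `K` of degree at most `D`: `Y(L)` is Zariski dense in `Y`, or every point of
`Y(L)` lies on the branch curve `w = 0`, over `T` or on a special line. The special lines are lines of the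
two rulings of `ℙ¹ × ℙ¹`, on which the partial derivatives of `F` in the other direction are constant
multiples of `F`; there are only finitely many of them, over the algebraic closure.

So there is one curve and one finite set on `Y`, such that for all `L` of degree at most `D` the surface
`Y` has the property which is asked for in the question if it has an `L`-point which is not on them.
-/

set_option autoImplicit false

namespace Pool.Agent.Results.MP_521e5f_ag.HorikawaModel

open MvPolynomial

section

variable {K : Type} [Field K]

/-- `F` is a form of bidegree `(4, 4)` in the coordinates `(j, 0)`, `(j, 1)` of the two factors. -/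
def IsForm (F : MvPolynomial (Fin 2 × Fin 2) K) : Prop :=
  ∀ m ∈ F.support, ∀ j, m (j, 0) + m (j, 1) = 4

/-- The curve `F = 0` in `ℙ¹ × ℙ¹` is smooth. -/
def Smooth (F : MvPolynomial (Fin 2 × Fin 2) K) : Prop :=
  ∀ x : Fin 2 × Fin 2 → AlgebraicClosure K, (∀ j, ∃ b, x (j, b) ≠ 0) → ∃ p, aeval x (pderiv p F) ≠ 0

/-- In all monomials of `F` the sum of the exponents of `x₁` and `y₁` is even. -/
def IsEven (F : MvPolynomial (Fin 2 × Fin 2) K) : Prop :=
  ∀ m ∈ F.support, Even (m (0, 1) + m (1, 1))

/-- The coordinates after the change of signs of the second coordinates. -/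
def flip {R : Type} [Neg R] (X : Fin 2 × Fin 2 → R) (p : Fin 2 × Fin 2) : R :=
  if p.2 = 1 then - X p else X p

/-- `(w, X)` and `(w', X')` are coordinate vectors of the same point. -/
def SamePoint {R : Type} [CommRing R] (w : R) (X : Fin 2 × Fin 2 → R) (w' : R)
    (X' : Fin 2 × Fin 2 → R) : Prop :=
  ∃ a : Fin 2 → R, (∀ j, a j ≠ 0) ∧ w' = (∏ j, a j) ^ 2 * w ∧ X' = fun p => a p.1 * X p

/-- The point `P = (w, X)` of `w² = F` over the algebraic closure maps to an `L`-point of the
quotient by `ι`: for all `σ` in the Galois group of `L` the point `σ P` is `P` or `ιP`. -/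
def PointOver (L : IntermediateField K (AlgebraicClosure K)) (F : MvPolynomial (Fin 2 × Fin 2) K)
    (w : AlgebraicClosure K) (X : Fin 2 × Fin 2 → AlgebraicClosure K) : Prop :=
  (∀ j, ∃ b, X (j, b) ≠ 0) ∧ w ^ 2 = aeval X F ∧
    ∀ σ : AlgebraicClosure K ≃ₐ[L] AlgebraicClosure K,
      SamePoint w X (σ w) (fun p => σ (X p)) ∨ SamePoint (-w) (flip X) (σ w) (fun p => σ (X p))

/-- The `L`-points of the quotient are Zariski dense: the polynomials which vanish at all coordinate
vectors of the points over them are divisible by `w² - F`. (The coefficients may be restricted to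
`K`, since the union of the conjugates of a proper closed subset is a proper closed subset.) -/
def DenseOver (L : IntermediateField K (AlgebraicClosure K)) (F : MvPolynomial (Fin 2 × Fin 2) K) :
    Prop :=
  ∀ g : MvPolynomial (Option (Fin 2 × Fin 2)) K,
    (∀ (w : AlgebraicClosure K) (X : Fin 2 × Fin 2 → AlgebraicClosure K), PointOver L F w X →
      aeval (fun o => o.elim w X) g = 0) → (MvPolynomial.X none ^ 2 - rename some F) ∣ g

/-- The line through `X` in the direction of the factor `i` is special: on it the derivatives of `F`
with respect to the coordinates of the other factor are constant multiples of `F`. -/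
def Special (F : MvPolynomial (Fin 2 × Fin 2) K) (X : Fin 2 × Fin 2 → K) (i : Fin 2) : Prop :=
  ∀ k, k ≠ i → ∀ b, ∃ c : K, ∀ Y : Fin 2 × Fin 2 → K, (∀ j, j ≠ i → ∀ b, Y (j, b) = X (j, b)) →
    eval Y (pderiv (k, b) F) = c * eval Y F

end

open Pool.Agent.Q35.TT Pool.Agent.Q35.TB

lemma special_iff {K : Type} [Field K] (F : MvPolynomial (Fin 2 × Fin 2) K)
    (X : Fin 2 × Fin 2 → K) (i : Fin 2) : Special F X i ↔ SpecF F X {i} := by
  simp only [Special, SpecF, OnPF, Finset.mem_singleton]

/-- **Rational points on Enriques surfaces in Horikawa's form over extensions of bounded degree.** -/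
theorem result (K : Type) [Field K] [NumberField K] (F : MvPolynomial (Fin 2 × Fin 2) K)
    (hF : IsForm F) (hs : Smooth F) (he : IsEven F) :
    -- the special lines over the algebraic closure: finitely many
    (∀ i : Fin 2, {P : Set (Fin 2 → AlgebraicClosure K) |
      ∃ X : Fin 2 × Fin 2 → AlgebraicClosure K, aeval X F ≠ 0 ∧
        Special (map (algebraMap K (AlgebraicClosure K)) F) X i ∧
        P = {y | ∃ a : AlgebraicClosure K, a ≠ 0 ∧ ∀ b, y b = a * X (1 - i, b)}}.Finite) ∧
    -- one finite set for all extensions of bounded degree
    (∀ D : ℕ, ∃ T : Set (Fin 2 × Fin 2 → AlgebraicClosure K), T.Finite ∧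
      ∀ L : IntermediateField K (AlgebraicClosure K), FiniteDimensional K L →
        Module.finrank K L ≤ D → DenseOver L F ∨
          ∀ (w : AlgebraicClosure K) (X : Fin 2 × Fin 2 → AlgebraicClosure K), PointOver L F w X →
            w = 0 ∨ (∃ i, Special (map (algebraMap K (AlgebraicClosure K)) F) X i) ∨
            ∃ t ∈ T, ∃ a : Fin 2 → AlgebraicClosure K, X = fun p => a p.1 * t p) := by
  constructor
  · intro i
    obtain ⟨h4, hs4, -⟩ := exf2 K (AlgebraicClosure K) 2 F hF
    have h1 := fsf2 (AlgebraicClosure K) (ex (AlgebraicClosure K) F) h4 (hs4.1 hs) {i}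
      (Finset.singleton_nonempty i) (by
        intro h
        have h2 : (1 - i : Fin 2) ∈ ({i} : Finset (Fin 2)) := by
          rw [h]
          exact Finset.mem_univ _
        rw [Finset.mem_singleton] at h2
        revert h2
        fin_cases i <;> decide)
    refine (h1.image fun P => {y : Fin 2 → AlgebraicClosure K |
      (fun p : Fin 2 × Fin 2 => y p.2) ∈ P}).subset ?_
    rintro _ ⟨X, hX, hXs, rfl⟩
    refine ⟨_, ⟨X, ?_, (special_iff _ _ _).1 hXs, rfl⟩, ?_⟩
    · rw [ex, eval_map]
      exact hX
    · ext y
      constructor
      · intro hy
        have h2 := hy (1 - i) (by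
          rw [Finset.mem_singleton]
          fin_cases i <;> decide)
        exact h2
      · rintro ⟨a, ha, hy⟩ j hj
        rw [Finset.mem_singleton] at hj
        have hj2 : j = 1 - i := by
          revert hj
          fin_cases i <;> fin_cases j <;> decide
        subst hj2
        exact ⟨a, ha, hy⟩
  · intro D
    obtain ⟨T, hT, h⟩ := enr2 K F hF hs he D
    refine ⟨T, hT, fun L hL hLD => ?_⟩
    rcases h L hL hLD with h1 | h1
    · exact Or.inl h1
    · right
      intro w X hX
      rcases h1 w X hX with h2 | ⟨J, hJ, hJ2, h2⟩ | h2
      · exact Or.inl h2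
      · right
        left
        obtain ⟨i, hi⟩ := hJ
        refine ⟨i, (special_iff _ _ _).2 ?_⟩
        have hJi : J = {i} := by
          ext j
          rw [Finset.mem_singleton]
          constructor
          · intro hj
            by_contra hne
            refine hJ2 (Finset.eq_univ_iff_forall.2 fun k => ?_)
            have : k = i ∨ k = j := by
              revert hne
              fin_cases i <;> fin_cases j <;> fin_cases k <;> simp
            rcases this with rfl | rfl
            · exact hi
            · exact hj
          · rintro rfl
            exact hi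
        rw [← hJi]
        exact h2
      · exact Or.inr (Or.inr h2)

end Pool.Agent.Results.MP_521e5f_ag.HorikawaModel
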